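import Pool.Agent.Helper58.SF.StA

/-!
# Project SF, module CY3: relative `H_2` of a line is cyclic (after M_CYC2 of helper29)
-/

set_option autoImplicit false

namespace Pool.Agent.Helper61.SF

open Set Topology Pool.Agent.Helper13.TR Pool.Agent.Helper58.SF
open Pool.Agent.Helper13.TW (IsArc Spl IsSCC dch Chn Splt GT CSy MP Val LR MCell StARB StARX StSCL StUAR StINF StLIN StAC1 StSDM)

/-- the half lines -/
private lemma halfl (hRAY : StRAY) {S : Type} [TopologicalSpace S]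
    [TopologicalSpace.MetrizableSpace S] (hW : HM S) {ψ : ℝ → S} (hψ : IsClosedEmbedding ψ)
    (h : C(S, ℝ)) (hh : ∀ t, h (ψ t) = t)
    (s : ℝ) (hs : s = 1 ∨ s = -1) : PP (range ψ ∩ {x | 0 ≤ s * h x}) 2 := by
  obtain ⟨h', hh'⟩ : ∃ h' : C(S, ℝ), ∀ x, h' x = s * h x :=
    ⟨⟨fun x => s * h x, continuous_const.mul h.continuous⟩, fun _ => rfl⟩
  have hcl : IsClosed (range ψ ∩ {x | 0 ≤ s * h x}) :=
    hψ.isClosed_range.inter (isClosed_le continuous_const (continuous_const.mul h.continuous))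
  have hs0 : s ≠ 0 := by
    rcases hs with h1 | h1 <;> rw [h1] <;> norm_num
  refine hRAY S hW _ h' hcl ?_ ?_ ⟨0, ?_⟩
  · rintro _ ⟨⟨a, rfl⟩, _⟩ _ ⟨⟨b, rfl⟩, _⟩ hab
    rw [hh', hh', hh, hh] at hab
    rw [mul_left_cancel₀ hs0 hab]
  · intro a b
    have hK : IsCompact (ψ '' Icc (min (s * a) (s * b)) (max (s * a) (s * b))) :=
      isCompact_Icc.image hψ.continuous
    refine hK.of_isClosed_subset (hcl.inter (isClosed_Icc.preimage h'.continuous)) ?_
    rintro _ ⟨⟨⟨t, rfl⟩, _⟩, ht⟩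
    rw [mem_preimage, hh', hh] at ht
    refine ⟨t, ?_, rfl⟩
    obtain ⟨h1, h2⟩ := ht
    rcases hs with rfl | rfl
    · exact ⟨(min_le_left _ _).trans (by linarith), le_trans (by linarith) (le_max_right _ _)⟩
    · exact ⟨(min_le_right _ _).trans (by linarith), le_trans (by linarith) (le_max_left _ _)⟩
  · rintro w ⟨_, hw⟩
    rw [hh']
    exact hw

/-- CY3 -/
theorem hCY3 (hRAY : StRAY) (hMV : StMV) (hMON : StMON) (hLIN : StLIN) : StCY3 := by
  intro S _ _ hW ψ hψ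
  have hmono := (hMON S).2.2.2.2.1
  obtain ⟨h, hh⟩ := hLIN.2.2.1 S ψ hψ
  obtain ⟨lp, hlp⟩ : ∃ lp : Set S, lp = range ψ ∩ {x | 0 ≤ (1 : ℝ) * h x} := ⟨_, rfl⟩
  obtain ⟨lm, hlm⟩ : ∃ lm : Set S, lm = range ψ ∩ {x | 0 ≤ (-1 : ℝ) * h x} := ⟨_, rfl⟩
  have plp : PP lp 2 := by
    rw [hlp]
    exact halfl hRAY hW hψ h hh 1 (Or.inl rfl)
  have plm : PP lm 2 := by
    rw [hlm]
    exact halfl hRAY hW hψ h hh (-1) (Or.inr rfl)
  have clp : IsClosed lp := by
    rw [hlp]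
    exact hψ.isClosed_range.inter (isClosed_le continuous_const (continuous_const.mul h.continuous))
  have clm : IsClosed lm := by
    rw [hlm]
    exact hψ.isClosed_range.inter (isClosed_le continuous_const (continuous_const.mul h.continuous))
  have hun : lp ∪ lm = range ψ := by
    rw [hlp, hlm]
    ext x
    constructor
    · rintro (hx | hx)
      · exact hx.1
      · exact hx.1
    · intro hx
      rcases le_total 0 (h x) with h1 | h1
      · exact Or.inl ⟨hx, by show (0 : ℝ) ≤ 1 * h x; linarith⟩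
      · exact Or.inr ⟨hx, by show (0 : ℝ) ≤ -1 * h x; linarith⟩
  have hin : lp ∩ lm = {ψ 0} := by
    rw [hlp, hlm]
    ext x
    rw [mem_singleton_iff]
    constructor
    · rintro ⟨⟨⟨t, rfl⟩, h1⟩, _, h2⟩
      have h1' : (0 : ℝ) ≤ 1 * h (ψ t) := h1
      have h2' : (0 : ℝ) ≤ -1 * h (ψ t) := h2
      rw [hh] at h1' h2'
      have h3 : t = 0 := by linarith
      rw [h3]
    · rintro rfl
      have h1 : (0 : ℝ) ≤ 1 * h (ψ 0) := by rw [hh]; norm_num
      have h2 : (0 : ℝ) ≤ -1 * h (ψ 0) := by rw [hh]; norm_num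
      exact ⟨⟨⟨0, rfl⟩, h1⟩, ⟨0, rfl⟩, h2⟩
  obtain ⟨m1, m2, m3, m4, -⟩ := hMV S lp lm clp clm 2
  rw [hin] at m1 m2 m3
  rw [hun] at m1 m2
  obtain ⟨N, -, hN0, g, hg, hgen⟩ := hW.ori (ψ 0)
  have hg0 : g ∈ Cyc ({ψ 0} : Set S) 3 := (hmono _ _ 3 (singleton_subset_iff.2 hN0)).1 hg
  obtain ⟨hG, -⟩ := hgen (ψ 0) hN0
  obtain ⟨g', ε, hgg, hε, hgε⟩ := m2 g hg0
  refine ⟨ε, hε, ?_⟩
  intro e he
  have hs1 : lp ⊆ range ψ := by
    rw [← hun]
    exact subset_union_left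
  have hs2 : lm ⊆ range ψ := by
    rw [← hun]
    exact subset_union_right
  obtain ⟨κ, hκ, hκe⟩ := m3 e (plp ((hmono _ _ 2 hs1).1 he)) (plm ((hmono _ _ 2 hs2).1 he))
  obtain ⟨m, hm⟩ := hG κ hκ
  refine ⟨m, ?_⟩
  have h1 : κ - m • g' ∈ Nul ({ψ 0} : Set S) 3 := by
    have h2 := Submodule.add_mem _ hm (Submodule.smul_mem _ m hgg)
    have e1 : κ - m • g + m • (g - g') = κ - m • g' := by
      rw [smul_sub]
      abel
    rw [e1] at h2
    exact h2
  exact m1 _ _ (m4 _ κ e g' ε hκe hgε) h1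

end Pool.Agent.Helper61.SF
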